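import Pool.Agent.Q191.PB.Defs

/-!
# The recurrence `x_{n+1} = 1 / (B_n x_n + x_{n-1})` with periodic coefficient

Indices are shifted by one: `x 0 = x_{-1}`, `x 1 = x_0`.
-/

set_option autoImplicit false
set_option linter.unusedVariables false

namespace Pool.Agent.Q191.PB

variable {B x : ℕ → ℝ}

theorem Sol.den_pos (hx : Sol B x) (hB : ∀ n, 0 ≤ B n) (n : ℕ) : 0 < B n * x (n + 1) + x n := by
  have h1 := hx.pos n
  have h2 := mul_nonneg (hB n) (hx.pos (n + 1)).le
  linarith

theorem Sol.inv_eq (hx : Sol B x) (hB : ∀ n, 0 ≤ B n) (n : ℕ) :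
    1 / x (n + 2) = B n * x (n + 1) + x n := by
  rw [hx.step n, one_div_one_div]

theorem Sol.mul_le (hx : Sol B x) (hB : ∀ n, 0 ≤ B n) (n : ℕ) : x (n + 2) * x n ≤ 1 := by
  rw [hx.step n, one_div_mul_eq_div, div_le_one (hx.den_pos hB n)]
  have h2 := mul_nonneg (hB n) (hx.pos (n + 1)).le
  linarith

theorem Sol.le_inv (hx : Sol B x) (hB : ∀ n, 0 ≤ B n) (n : ℕ) : x (n + 2) ≤ 1 / x n := by
  rw [le_div_iff₀ (hx.pos n)]
  exact hx.mul_le hB n

theorem Sol.four (hx : Sol B x) (hB : ∀ n, 0 ≤ B n) (n : ℕ) :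
    x (n + 4) ≤ B n * x (n + 1) + x n := by
  rw [← hx.inv_eq hB n]
  exact hx.le_inv hB (n + 2)

theorem Sol.four_eq (hx : Sol B x) (hB : ∀ n, 0 ≤ B n) (n : ℕ) (h : B (n + 2) = 0) :
    x (n + 4) = B n * x (n + 1) + x n := by
  rw [← hx.inv_eq hB n, hx.step (n + 2), h, zero_mul, zero_add]

theorem Sol.shift (hx : Sol B x) (s : ℕ) : Sol (fun n => B (n + s)) (fun n => x (n + s)) where
  pos n := hx.pos _
  step n := by
    have := hx.step (n + s)
    show x (n + 2 + s) = 1 / (B (n + s) * x (n + 1 + s) + x (n + s))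
    rw [show n + 2 + s = n + s + 2 by ring, show n + 1 + s = n + s + 1 by ring]
    exact this

theorem Bdd.shift {x : ℕ → ℝ} (h : Bdd x) (s : ℕ) : Bdd (fun n => x (n + s)) := by
  obtain ⟨M, hM⟩ := h
  exact ⟨M, fun n => hM _⟩

theorem Bdd.of_shift {x : ℕ → ℝ} (s : ℕ) (h : Bdd (fun n => x (n + s))) : Bdd x := by
  obtain ⟨M, hM⟩ := h
  have hM' : ∀ n, n ∈ Finset.range s → x n ≤ ∑ i ∈ Finset.range s, |x i| := fun n hn =>
    (le_abs_self _).trans (Finset.single_le_sum (f := fun i => |x i|)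
      (fun i _ => abs_nonneg _) hn)
  set M' := ∑ i ∈ Finset.range s, |x i|
  refine ⟨max M M', fun n => ?_⟩
  by_cases hn : n < s
  · exact (hM' n (Finset.mem_range.2 hn)).trans (le_max_right _ _)
  · have := hM (n - s)
    simp only at this
    rw [Nat.sub_add_cancel (not_lt.1 hn)] at this
    exact this.trans (le_max_left _ _)

theorem per_mul {k : ℕ} (hper : ∀ n, B (n + k) = B n) (n t : ℕ) : B (n + k * t) = B n := by
  induction t with
  | zero => simp
  | succ t ih => rw [Nat.mul_succ, ← Nat.add_assoc, hper, ih]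

theorem per_mod {k : ℕ} (hper : ∀ n, B (n + k) = B n) {m n : ℕ} (h : m ≡ n [MOD k]) :
    B m = B n := by
  have key : ∀ n, B n = B (n % k) := fun n => by
    conv_lhs => rw [← Nat.mod_add_div n k]
    exact per_mul hper _ _
  rw [key m, key n, h]

theorem bound_B {k : ℕ} (hk : 0 < k) (hB : ∀ n, 0 ≤ B n) (hper : ∀ n, B (n + k) = B n) :
    ∃ C, 0 ≤ C ∧ ∀ n, B n ≤ C := by
  refine ⟨∑ i ∈ Finset.range k, B i, Finset.sum_nonneg fun i _ => hB i, fun n => ?_⟩
  rw [per_mod hper (Nat.mod_modEq n k).symm]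
  exact Finset.single_le_sum (f := B) (fun i _ => hB i) (Finset.mem_range.2 (Nat.mod_lt n hk))

theorem bound_b {k : ℕ} (hk : 0 < k) (hper : ∀ n, B (n + k) = B n) :
    ∃ b, 0 < b ∧ ∀ n, 0 < B n → b ≤ B n := by
  have key : ∀ K : ℕ, ∃ b, 0 < b ∧ ∀ n, n < K → 0 < B n → b ≤ B n := by
    intro K
    induction K with
    | zero => exact ⟨1, one_pos, fun n hn => absurd hn (Nat.not_lt_zero n)⟩
    | succ K ih =>
      obtain ⟨b, hb, h⟩ := ih
      by_cases hK : 0 < B K
      · refine ⟨min b (B K), lt_min hb hK, fun n hn hBn => ?_⟩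
        rcases Nat.lt_succ_iff_lt_or_eq.1 hn with h' | h'
        · exact (min_le_left _ _).trans (h n h' hBn)
        · rw [h']; exact min_le_right _ _
      · refine ⟨b, hb, fun n hn hBn => ?_⟩
        rcases Nat.lt_succ_iff_lt_or_eq.1 hn with h' | h'
        · exact h n h' hBn
        · rw [h'] at hBn; exact absurd hBn hK
  obtain ⟨b, hb, h⟩ := key k
  refine ⟨b, hb, fun n hn => ?_⟩
  have e := per_mod hper (Nat.mod_modEq n k)
  rw [← e] at hn ⊢
  exact h _ (Nat.mod_lt n hk) hn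

/-- positive lower bound of a bounded solution -/
theorem Sol.lower (hx : Sol B x) (hB : ∀ n, 0 ≤ B n) {C M : ℝ} (hC : ∀ n, B n ≤ C)
    (hM : ∀ n, x n ≤ M) : ∃ ε, 0 < ε ∧ ∀ n, ε ≤ x n := by
  have hM0 : 0 < M := (hx.pos 0).trans_le (hM 0)
  have hC0 : 0 ≤ C := (hB 0).trans (hC 0)
  have key : ∀ n, 1 / ((C + 1) * M) ≤ x (n + 2) := by
    intro n
    rw [hx.step n]
    apply one_div_le_one_div_of_le (hx.den_pos hB n)
    have h1 : B n * x (n + 1) ≤ C * M :=
      mul_le_mul (hC n) (hM _) (hx.pos _).le hC0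
    have h2 := hM n
    linarith
  refine ⟨min (min (x 0) (x 1)) (1 / ((C + 1) * M)), ?_, ?_⟩
  · refine lt_min (lt_min (hx.pos 0) (hx.pos 1)) ?_
    positivity
  · intro n
    match n with
    | 0 => exact (min_le_left _ _).trans (min_le_left _ _)
    | 1 => exact (min_le_left _ _).trans (min_le_right _ _)
    | (n + 2) => exact (min_le_right _ _).trans (key n)

/-- a sequence growing by a fixed amount infinitely often -/
theorem unbdd_of_incr {u : ℕ → ℝ} {δ : ℝ} (hδ : 0 < δ) {i0 k : ℕ} (hk : 0 < k)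
    (h1 : ∀ i, u i ≤ u (i + 1)) (h2 : ∀ t, u (i0 + k * t) + δ ≤ u (i0 + k * t + 1)) (M : ℝ) :
    ∃ i, M < u i := by
  have hmono : Monotone u := monotone_nat_of_le_succ h1
  have h3 : ∀ t : ℕ, u i0 + t * δ ≤ u (i0 + k * t) := by
    intro t
    induction t with
    | zero => simp
    | succ t ih =>
      have h4 := h2 t
      have h5 : u (i0 + k * t + 1) ≤ u (i0 + k * (t + 1)) := by
        apply hmono
        have : k * (t + 1) = k * t + k := by ring
        omega
      push_cast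
      linarith
  obtain ⟨t, ht⟩ := exists_nat_gt ((M - u i0) / δ)
  rw [div_lt_iff₀ hδ] at ht
  exact ⟨i0 + k * t, by linarith [h3 t]⟩

/-- if the class 3 modulo 4 is inactive and a solution is bounded then class 1 is inactive -/
theorem inactive_three {k : ℕ} (hk : 0 < k) (hB : ∀ n, 0 ≤ B n) (hper : ∀ n, B (n + k) = B n)
    (hx : Sol B x) (hb : Bdd x) (h3 : ¬ Act B 3) : ¬ Act B 1 := by
  rintro ⟨n0, hn0, hpos⟩
  obtain ⟨M, hM⟩ := hb
  obtain ⟨C, hC0, hC⟩ := bound_B hk hB hper
  obtain ⟨ε, hε, hl⟩ := hx.lower hB hC hM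
  have hz : ∀ i, B (4 * i + 3) = 0 := by
    intro i
    by_contra hne
    exact h3 ⟨4 * i + 3, by omega, lt_of_le_of_ne (hB _) (Ne.symm hne)⟩
  have hrec : ∀ i, x (4 * (i + 1) + 1) = B (4 * i + 1) * x (4 * i + 1 + 1) + x (4 * i + 1) :=
    fun i => hx.four_eq hB (4 * i + 1) (hz i)
  set i0 := n0 / 4 with hi0
  have hn0' : n0 = 4 * i0 + 1 := by omega
  obtain ⟨i, hi⟩ := unbdd_of_incr (u := fun i => x (4 * i + 1)) (δ := B n0 * ε)
    (mul_pos hpos hε) (i0 := i0) hk
    (fun i => by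
      show x (4 * i + 1) ≤ x (4 * (i + 1) + 1)
      rw [hrec i]
      have := mul_nonneg (hB (4 * i + 1)) (hx.pos (4 * i + 1 + 1)).le
      linarith)
    (fun t => by
      show x (4 * (i0 + k * t) + 1) + B n0 * ε ≤ x (4 * (i0 + k * t + 1) + 1)
      rw [hrec (i0 + k * t)]
      have e : B (4 * (i0 + k * t) + 1) = B n0 := by
        rw [show 4 * (i0 + k * t) + 1 = n0 + k * (4 * t) by rw [hn0']; ring]
        exact per_mul hper _ _
      rw [e]
      have := mul_le_mul_of_nonneg_left (hl (4 * (i0 + k * t) + 1 + 1)) (hB n0)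
      linarith) M
  exact absurd (hM _) (not_le.2 hi)

theorem act_shift {B : ℕ → ℝ} {k : ℕ} (hk : 0 < k) (hper : ∀ n, B (n + k) = B n) (s r : ℕ) :
    Act (fun n => B (n + s)) r ↔ Act B (r + s) := by
  constructor
  · rintro ⟨n, hn, hp⟩
    exact ⟨n + s, by omega, hp⟩
  · rintro ⟨n, hn, hp⟩
    -- move `n` beyond `s`
    refine ⟨n + k * (4 * s) - s, ?_, ?_⟩
    · have h1 : s ≤ n + k * (4 * s) := by nlinarith [Nat.one_le_iff_ne_zero.2 hk.ne']
      have h2 : (k * (4 * s)) % 4 = 0 := by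
        rw [show k * (4 * s) = 4 * (k * s) by ring]
        exact Nat.mul_mod_right _ _
      omega
    · have h1 : s ≤ n + k * (4 * s) := by nlinarith [Nat.one_le_iff_ne_zero.2 hk.ne']
      show 0 < B (n + k * (4 * s) - s + s)
      rw [Nat.sub_add_cancel h1, per_mul hper]
      exact hp

/-- if the class `r` modulo 4 is inactive and a solution is bounded then class `r + 2` is
inactive -/
theorem inactive {k : ℕ} (hk : 0 < k) (hB : ∀ n, 0 ≤ B n) (hper : ∀ n, B (n + k) = B n)
    (hx : Sol B x) (hb : Bdd x) (r : ℕ) (h3 : ¬ Act B r) : ¬ Act B (r + 2) := by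
  have h := inactive_three (B := fun n => B (n + (r + 1))) (x := fun n => x (n + (r + 1))) hk
    (fun n => hB _)
    (fun n => by
      show B (n + k + (r + 1)) = B (n + (r + 1))
      rw [show n + k + (r + 1) = n + (r + 1) + k by ring]
      exact hper _)
    (hx.shift _) (hb.shift _)
  rw [act_shift hk hper, act_shift hk hper] at h
  have e1 : Act B (3 + (r + 1)) ↔ Act B r := by
    unfold Act
    have : (3 + (r + 1)) % 4 = r % 4 := by omega
    rw [this]
  have e2 : Act B (1 + (r + 1)) ↔ Act B (r + 2) := by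
    unfold Act
    have : (1 + (r + 1)) % 4 = (r + 2) % 4 := by omega
    rw [this]
  rw [e1, e2] at h
  exact h h3

/-- a sequence with bounded increments which is reset infinitely often -/
theorem bdd_of_reset {v : ℕ → ℝ} {A D : ℝ} {i0 k : ℕ} (hk : 0 < k) (hA : 0 ≤ A)
    (h1 : ∀ i, v (i + 1) ≤ v i + A) (h2 : ∀ t, v (i0 + k * t + 1) ≤ D) : Bdd v := by
  have h3 : ∀ i (j : ℕ), v (i + j) ≤ v i + j * A := by
    intro i j
    induction j with
    | zero => simp
    | succ j ih =>
      have := h1 (i + j)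
      rw [← Nat.add_assoc]
      push_cast
      linarith
  refine Bdd.of_shift (i0 + 1) ⟨D + k * A, fun n => ?_⟩
  have h4 := h3 (i0 + k * (n / k) + 1) (n % k)
  have e : i0 + k * (n / k) + 1 + n % k = n + (i0 + 1) := by
    have := Nat.div_add_mod n k
    omega
  rw [e] at h4
  have h5 : ((n % k : ℕ) : ℝ) * A ≤ k * A := by
    apply mul_le_mul_of_nonneg_right _ hA
    exact_mod_cast (Nat.mod_lt n hk).le
  simp only
  linarith [h2 (n / k)]

/-- classes 1 and 3 inactive, classes 0 and 2 active -/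
theorem bdd_even {k : ℕ} (hk : 0 < k) (hB : ∀ n, 0 ≤ B n) (hper : ∀ n, B (n + k) = B n)
    (hx : Sol B x) (h0 : Act B 0) (h2 : Act B 2) (h1 : ¬ Act B 1) (h3 : ¬ Act B 3) : Bdd x := by
  obtain ⟨C, hC0, hC⟩ := bound_B hk hB hper
  have hz : ∀ n, n % 2 = 1 → B n = 0 := by
    intro n hn
    by_contra hne
    have hp : 0 < B n := lt_of_le_of_ne (hB _) (Ne.symm hne)
    rcases (by omega : n % 4 = 1 ∨ n % 4 = 3) with h | h
    · exact h1 ⟨n, by omega, hp⟩
    · exact h3 ⟨n, by omega, hp⟩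
  -- the odd terms
  have hodd : ∀ i, x (4 * i + 1) = x 1 ∧ x (4 * i + 3) = 1 / x 1 := by
    have hs : ∀ i, x (4 * i + 1) = x 1 → x (4 * i + 3) = 1 / x 1 := by
      intro i h
      rw [hx.step (4 * i + 1), hz _ (by omega), zero_mul, zero_add, h]
    intro i
    induction i with
    | zero => exact ⟨rfl, hs 0 rfl⟩
    | succ i ih =>
      have h4 : x (4 * (i + 1) + 1) = x 1 := by
        show x (4 * i + 3 + 2) = x 1
        rw [hx.step (4 * i + 3), hz _ (by omega), zero_mul, zero_add, ih.2, one_div_one_div]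
      exact ⟨h4, hs _ h4⟩
  set c := x 1 with hc
  have hc0 : 0 < c := hx.pos 1
  set E := max c (1 / c) with hE
  have hE0 : 0 < E := lt_max_of_lt_left hc0
  have hE1 : ∀ n, n % 2 = 1 → x n ≤ E ∧ 1 / E ≤ x n := by
    intro n hn
    have hA : c ≤ E := le_max_left _ _
    have hB' : 1 / c ≤ E := le_max_right _ _
    rcases (by omega : n % 4 = 1 ∨ n % 4 = 3) with h | h
    · have : x n = c := by
        rw [show n = 4 * (n / 4) + 1 by omega]
        exact (hodd _).1
      rw [this]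
      exact ⟨hA, by rw [one_div_le hE0 hc0]; exact hB'⟩
    · have : x n = 1 / c := by
        rw [show n = 4 * (n / 4) + 3 by omega]
        exact (hodd _).2
      rw [this]
      exact ⟨hB', one_div_le_one_div_of_le hc0 hA⟩
  -- even terms
  have heven : ∀ e, e % 2 = 0 → Act B (e + 2) → Bdd (fun i => x (4 * i + e)) := by
    rintro e he ⟨n0, hn0, hpos⟩
    -- make n0 larger than e + 2
    obtain ⟨i0, hi0⟩ : ∃ i0, n0 + k * (4 * (e + 2)) = 4 * i0 + e + 2 := by
      have h1 : e + 2 ≤ n0 + k * (4 * (e + 2)) := by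
        nlinarith [Nat.one_le_iff_ne_zero.2 hk.ne']
      have h2 : (k * (4 * (e + 2))) % 4 = 0 := by
        rw [show k * (4 * (e + 2)) = 4 * (k * (e + 2)) by ring]
        exact Nat.mul_mod_right _ _
      exact ⟨(n0 + k * (4 * (e + 2)) - (e + 2)) / 4, by omega⟩
    refine bdd_of_reset (A := C * E) (D := E / B n0) (i0 := i0) hk (by positivity) ?_ ?_
    · intro i
      show x (4 * (i + 1) + e) ≤ x (4 * i + e) + C * E
      have h4 := hx.four hB (4 * i + e)
      have h5 : B (4 * i + e) * x (4 * i + e + 1) ≤ C * E :=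
        mul_le_mul (hC _) (hE1 _ (by omega)).1 (hx.pos _).le hC0
      rw [show 4 * (i + 1) + e = 4 * i + e + 4 by ring]
      linarith
    · intro t
      show x (4 * (i0 + k * t + 1) + e) ≤ E / B n0
      rw [show 4 * (i0 + k * t + 1) + e = (4 * i0 + e + 2 + k * (4 * t)) + 2 by ring, hx.step]
      have e1 : B (4 * i0 + e + 2 + k * (4 * t)) = B n0 := by
        rw [per_mul hper, ← hi0, per_mul hper]
      rw [e1, div_le_div_iff₀ (by
        have := hx.den_pos hB (4 * i0 + e + 2 + k * (4 * t))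
        rwa [e1] at this) hpos]
      have h6 := (hE1 (4 * i0 + e + 2 + k * (4 * t) + 1) (by
        have h2 : (k * (4 * t)) % 4 = 0 := by
          rw [show k * (4 * t) = 4 * (k * t) by ring]
          exact Nat.mul_mod_right _ _
        omega)).2
      have h7 : 1 ≤ E * x (4 * i0 + e + 2 + k * (4 * t) + 1) := by
        rw [div_le_iff₀ hE0] at h6
        linarith
      have h8 := hx.pos (4 * i0 + e + 2 + k * (4 * t))
      have h9 : 0 ≤ E * x (4 * i0 + e + 2 + k * (4 * t)) := by positivity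
      nlinarith [mul_le_mul_of_nonneg_left h7 hpos.le]
  have hA0 : Act B (0 + 2) := h2
  have hA2 : Act B (2 + 2) := by
    obtain ⟨n, hn, hp⟩ := h0
    exact ⟨n, by omega, hp⟩
  obtain ⟨M0, hM0⟩ := heven 0 rfl hA0
  obtain ⟨M2, hM2⟩ := heven 2 rfl hA2
  refine ⟨max E (max M0 M2), fun n => ?_⟩
  rcases (by omega : n % 2 = 1 ∨ n % 4 = 0 ∨ n % 4 = 2) with h | h | h
  · exact (hE1 n h).1.trans (le_max_left _ _)
  · have := hM0 (n / 4)
    simp only at this
    rw [show 4 * (n / 4) + 0 = n by omega] at this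
    exact this.trans ((le_max_left _ _).trans (le_max_right _ _))
  · have := hM2 (n / 4)
    simp only at this
    rw [show 4 * (n / 4) + 2 = n by omega] at this
    exact this.trans ((le_max_right _ _).trans (le_max_right _ _))

/-- zero coefficients -/
theorem bdd_zero (hB0 : ∀ n, B n = 0) (hx : Sol B x) : Bdd x := by
  have h1 : ∀ n, x (n + 2) = 1 / x n := fun n => by
    rw [hx.step n, hB0, zero_mul, zero_add]
  have h2 : ∀ n, x (n + 4) = x n := fun n => by
    rw [show n + 4 = n + 2 + 2 by ring, h1, h1, one_div_one_div]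
  refine ⟨x 0 + x 1 + x 2 + x 3, fun n => ?_⟩
  have h0 := hx.pos 0
  have h1 := hx.pos 1
  have h2' := hx.pos 2
  have h3 := hx.pos 3
  induction n using Nat.strong_induction_on with
  | _ n ih =>
    by_cases hn : n < 4
    · interval_cases n <;> linarith
    · have := ih (n - 4) (by omega)
      rwa [← h2 (n - 4), show n - 4 + 4 = n by omega] at this

end Pool.Agent.Q191.PB
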