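import Mathlib

/-!
# Definitions for the recurrence `x_{n+1} = 1 / (B_n x_n + x_{n-1})` with periodic coefficient

Indices are shifted by one: `x 0 = x_{-1}`, `x 1 = x_0`.
-/

set_option autoImplicit false

namespace Pool.Agent.Q191.PB

/-- positive solutions; `x (m + 1)` is `x_m` in the notation of the problem -/
structure Sol (B : ℕ → ℝ) (x : ℕ → ℝ) : Prop where
  pos : ∀ n, 0 < x n
  step : ∀ n, x (n + 2) = 1 / (B n * x (n + 1) + x n)

/-- the residue class `r` modulo 4 contains an index with positive coefficient -/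
def Act (B : ℕ → ℝ) (r : ℕ) : Prop := ∃ n, n % 4 = r % 4 ∧ 0 < B n

/-- boundedness -/
def Bdd (x : ℕ → ℝ) : Prop := ∃ M, ∀ n, x n ≤ M

/-- `rho B n i`: `rho 0 = B n`, then alternately `ρ ↦ ρ / (1 + ρ B')` and `ρ ↦ ρ + B'` where `B'`
runs through `B (n + 2), B (n + 4), …` -/
noncomputable def rho (B : ℕ → ℝ) (n : ℕ) : ℕ → ℝ
  | 0 => B n
  | i + 1 => if i % 2 = 0 then rho B n i / (1 + rho B n i * B (n + 2 * i + 2))
      else rho B n i + B (n + 2 * i + 2)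

/-- the least `j` with `B (n + 3 + 4 j) > 0` -/
noncomputable def gap (B : ℕ → ℝ) (n : ℕ) : ℕ := sInf {j | 0 < B (n + 3 + 4 * j)}

/-- the successor of the index `n`: the first `m` among `n + 3, n + 7, n + 11, …` with
`B m > 0` -/
noncomputable def phi (B : ℕ → ℝ) (n : ℕ) : ℕ := n + 3 + 4 * gap B n

/-- the multiplier -/
noncomputable def lam (B : ℕ → ℝ) (n : ℕ) : ℝ := rho B n (2 * gap B n + 1)

/-- every cycle contracts -/
def Contr (B : ℕ → ℝ) (k : ℕ) : Prop :=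
  ∀ n, 0 < B n → ∀ i, 1 ≤ i → (phi B)^[i] n ≡ n [MOD k] →
    ∏ j ∈ Finset.range i, lam B ((phi B)^[j] n) < 1

/-- the criterion -/
def Crit (B : ℕ → ℝ) (k : ℕ) : Prop :=
  (∀ n, B n = 0) ∨ (Act B 0 ∧ Act B 2 ∧ ¬ Act B 1 ∧ ¬ Act B 3) ∨
  (Act B 1 ∧ Act B 3 ∧ ¬ Act B 0 ∧ ¬ Act B 2) ∨
  (Act B 0 ∧ Act B 1 ∧ Act B 2 ∧ Act B 3 ∧ Contr B k)

end Pool.Agent.Q191.PB
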