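import Pool.Agent.Q191.PB.Phi

/-!
# The boundedness criterion
-/

set_option autoImplicit false
set_option linter.unusedVariables false

open Set

namespace Pool.Agent.Q191.PB

variable {B x : ℕ → ℝ}

/-! ### A cycle which does not contract -/

/-- the solution with given initial values -/
noncomputable def orb (B : ℕ → ℝ) (p q : ℝ) : ℕ → ℝ
  | 0 => p
  | 1 => q
  | (n + 2) => 1 / (B n * orb B p q (n + 1) + orb B p q n)

theorem orb_pos (hB : ∀ n, 0 ≤ B n) {p q : ℝ} (hp : 0 < p) (hq : 0 < q) (n : ℕ) :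
    0 < orb B p q n := by
  induction n using Nat.strong_induction_on with
  | _ n ih =>
    match n, ih with
    | 0, _ => simpa [orb] using hp
    | 1, _ => simpa [orb] using hq
    | (n + 2), ih =>
      have h1 := ih n (by omega)
      have h2 := ih (n + 1) (by omega)
      have h3 := hB n
      rw [orb]
      positivity

theorem orb_sol (hB : ∀ n, 0 ≤ B n) {p q : ℝ} (hp : 0 < p) (hq : 0 < q) : Sol B (orb B p q) where
  pos := orb_pos hB hp hq
  step n := by rw [orb]

theorem orb_cont (hB : ∀ n, 0 ≤ B n) (n : ℕ) :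
    ContinuousOn (fun z : ℝ × ℝ => orb B z.1 z.2 n) {z | 0 < z.1 ∧ 0 < z.2} := by
  induction n using Nat.strong_induction_on with
  | _ n ih =>
    match n, ih with
    | 0, _ => simp only [orb]; fun_prop
    | 1, _ => simp only [orb]; fun_prop
    | (n + 2), ih =>
      have h1 := ih n (by omega)
      have h2 := ih (n + 1) (by omega)
      simp only [orb]
      refine ContinuousOn.div continuousOn_const ((continuousOn_const.mul h2).add h1) ?_
      rintro ⟨p, q⟩ ⟨hp, hq⟩
      exact ((orb_sol hB hp hq).den_pos hB n).ne'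

theorem orb_eq (hx : Sol B x) (n : ℕ) : x n = orb B (x 0) (x 1) n := by
  induction n using Nat.strong_induction_on with
  | _ n ih =>
    match n, ih with
    | 0, _ => simp [orb]
    | 1, _ => simp [orb]
    | (n + 2), ih => rw [hx.step n, orb, ← ih n (by omega), ← ih (n + 1) (by omega)]

theorem iter_lower (hx : Sol B x) (hB : ∀ n, 0 ≤ B n) {k : ℕ} (hk : 0 < k)
    (hper : ∀ n, B (n + k) = B n) (hA : ∀ r, Act B r) {n : ℕ} (hn : 0 < B n) (i : ℕ) :
    (∏ j ∈ Finset.range i, lam B ((phi B)^[j] n)) * x (n + 1) ≤ x ((phi B)^[i] n + 1) := by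
  induction i with
  | zero => simp
  | succ i ih =>
    have h1 := (exc_lower hx hB ((phi B)^[i] n) (iter_pos hk hper hA hn i)).1
    have h2 : 0 < lam B ((phi B)^[i] n) := rho_pos hB (iter_pos hk hper hA hn i) _
    rw [Finset.prod_range_succ, Function.iterate_succ_apply']
    nlinarith

theorem iter_lower' (hx : Sol B x) (hB : ∀ n, 0 ≤ B n) {k : ℕ} (hk : 0 < k)
    (hper : ∀ n, B (n + k) = B n) (hA : ∀ r, Act B r) {n : ℕ} (hn : 0 < B n) {i : ℕ} (hi : 1 ≤ i) :
    (∏ j ∈ Finset.range i, lam B ((phi B)^[j] n)) * x (n + 1) < x ((phi B)^[i] n + 1) := by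
  obtain ⟨i, rfl⟩ : ∃ i', i = i' + 1 := ⟨i - 1, by omega⟩
  have h0 := iter_lower hx hB hk hper hA hn i
  have h1 := (exc_lower hx hB ((phi B)^[i] n) (iter_pos hk hper hA hn i)).1
  have h2 : 0 < lam B ((phi B)^[i] n) := rho_pos hB (iter_pos hk hper hA hn i) _
  rw [Finset.prod_range_succ, Function.iterate_succ_apply']
  nlinarith

theorem phi_ge (n : ℕ) : n + 3 ≤ phi B n := by unfold phi; omega

theorem iter_ge (n i : ℕ) : n + 3 * i ≤ (phi B)^[i] n := by
  induction i with
  | zero => simp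
  | succ i ih =>
    rw [Function.iterate_succ_apply']
    have := phi_ge (B := B) ((phi B)^[i] n)
    omega

theorem not_bdd_of_cycle (hx : Sol B x) (hB : ∀ n, 0 ≤ B n) {k : ℕ} (hk : 0 < k)
    (hper : ∀ n, B (n + k) = B n) (hA : ∀ r, Act B r) (hc : ¬ Contr B k) : ¬ Bdd x := by
  rintro ⟨M, hM⟩
  obtain ⟨C, hC0, hC⟩ := bound_B hk hB hper
  obtain ⟨ε, hε, hl⟩ := hx.lower hB hC hM
  unfold Contr at hc
  push Not at hc
  obtain ⟨n, hn, i, hi, hmod, hprod⟩ := hc
  set m := (phi B)^[i] n with hm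
  have hmn : n + 3 * i ≤ m := iter_ge n i
  obtain ⟨L, hL⟩ : ∃ L, m = n + L := ⟨m - n, by omega⟩
  have hL0 : 0 < L := by omega
  obtain ⟨l, hl'⟩ : ∃ l, L = k * l := by
    have h1 : n + L ≡ n + 0 [MOD k] := by rw [← hL]; exact hmod
    have h2 := Nat.ModEq.add_left_cancel' n h1
    exact (Nat.modEq_zero_iff_dvd.1 h2)
  -- the gain on the compact set
  set S : Set (ℝ × ℝ) := Icc ε M ×ˢ Icc ε M with hS
  have hSc : IsCompact S := isCompact_Icc.prod isCompact_Icc
  have hSne : S.Nonempty := ⟨(x 0, x 0), ⟨⟨hl 0, hM 0⟩, ⟨hl 0, hM 0⟩⟩⟩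
  have hSsub : S ⊆ {z | 0 < z.1 ∧ 0 < z.2} := fun z hz => ⟨hε.trans_le hz.1.1, hε.trans_le hz.2.1⟩
  obtain ⟨z0, hz0, hmin⟩ := hSc.exists_isMinOn hSne
    (((orb_cont hB (m + 1)).mono hSsub).sub ((orb_cont hB (n + 1)).mono hSsub))
  have hgain : ∀ p q : ℝ, 0 < p → 0 < q → orb B p q (n + 1) < orb B p q (m + 1) := by
    intro p q hp hq
    have h1 := iter_lower' (orb_sol hB hp hq) hB hk hper hA hn hi
    have h2 := orb_pos hB hp hq (n + 1)
    nlinarith
  set δ := orb B z0.1 z0.2 (m + 1) - orb B z0.1 z0.2 (n + 1) with hδ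
  have hδ0 : 0 < δ := sub_pos.2 (hgain _ _ (hSsub hz0).1 (hSsub hz0).2)
  -- the shifted solutions
  have hstep : ∀ t : ℕ, x (n + 1 + L * t) + δ ≤ x (n + 1 + L * (t + 1)) := by
    intro t
    have hs : Sol B (fun j => x (j + L * t)) := by
      have h1 := hx.shift (L * t)
      have h2 : (fun j => B (j + L * t)) = B := by
        funext j
        rw [hl', mul_assoc]
        exact per_mul hper _ _
      rwa [h2] at h1
    have h3 := hmin (show (x (0 + L * t), x (1 + L * t)) ∈ S from
      ⟨⟨hl _, hM _⟩, ⟨hl _, hM _⟩⟩)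
    have h4 : x (n + 1 + L * t) = orb B (x (0 + L * t)) (x (1 + L * t)) (n + 1) :=
      orb_eq hs (n + 1)
    have h5 : x (m + 1 + L * t) = orb B (x (0 + L * t)) (x (1 + L * t)) (m + 1) :=
      orb_eq hs (m + 1)
    have h6 : δ ≤ orb B (x (0 + L * t)) (x (1 + L * t)) (m + 1) -
        orb B (x (0 + L * t)) (x (1 + L * t)) (n + 1) := h3
    rw [← h4, ← h5] at h6
    have e : m + 1 + L * t = n + 1 + L * (t + 1) := by rw [hL]; ring
    rw [e] at h6
    linarith
  obtain ⟨i', hi'⟩ := unbdd_of_incr (u := fun t => x (n + 1 + L * t)) hδ0 (i0 := 0) one_pos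
    (fun t => by
      show x (n + 1 + L * t) ≤ x (n + 1 + L * (t + 1))
      linarith [hstep t]) (fun t => hstep _) M
  exact absurd (hM _) (not_le.2 hi')

/-! ### Boundedness when all cycles contract -/

theorem rho_lower (hB : ∀ n, 0 ≤ B n) {C b : ℝ} (hC0 : 0 ≤ C) (hC : ∀ n, B n ≤ C) (hb : 0 < b)
    (hbB : ∀ n, 0 < B n → b ≤ B n) (I : ℕ) :
    ∃ c, 0 < c ∧ ∀ n, 0 < B n → ∀ i, i ≤ I → c ≤ rho B n i := by
  induction I with
  | zero =>
    refine ⟨b, hb, fun n hn i hi => ?_⟩
    obtain rfl : i = 0 := by omega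
    exact hbB n hn
  | succ I ih =>
    obtain ⟨c, hc, h⟩ := ih
    refine ⟨c / (1 + c * C), by positivity, fun n hn i hi => ?_⟩
    have hcc : c / (1 + c * C) ≤ c := div_le_self hc.le (by nlinarith)
    rcases Nat.lt_or_ge i (I + 1) with h' | h'
    · exact hcc.trans (h n hn i (by omega))
    · obtain rfl : i = I + 1 := by omega
      have h1 := h n hn I le_rfl
      have hr := rho_pos hB hn I
      have h2 := hB (n + 2 * I + 2)
      have h3 := hC (n + 2 * I + 2)
      rw [rho]
      split_ifs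
      · rw [div_le_div_iff₀ (by positivity) (by positivity)]
        have h4 : c * (rho B n I * B (n + 2 * I + 2)) ≤ c * (rho B n I * C) := by gcongr
        nlinarith
      · linarith

theorem win_exists {k : ℕ} (hk : 0 < k) (hper : ∀ n, B (n + k) = B n) (hA : ∀ r, Act B r)
    (n : ℕ) : ∃ j, j < k ∧ 0 < B (n + 4 * j) := by
  obtain ⟨j, hj, hp⟩ := gap_exists hk hper hA (n + (4 * k - 3))
  refine ⟨j, hj, ?_⟩
  rw [show n + (4 * k - 3) + 3 + 4 * j = n + 4 * j + k * 4 by omega, per_mul hper] at hp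
  exact hp

theorem window (hx : Sol B x) (hB : ∀ n, 0 ≤ B n) {k : ℕ} (hk : 0 < k)
    (hper : ∀ n, B (n + k) = B n) (hA : ∀ r, Act B r) {C : ℝ} (hC0 : 0 ≤ C) (hC : ∀ n, B n ≤ C)
    (n0 : ℕ) {T : ℝ} (hT : 0 ≤ T)
    (hw : ∀ j, n0 ≤ j → j < n0 + 4 * k → 0 < B j → x (j + 1) ≤ T) (s : ℕ) (hs : s < 4) :
    x (n0 + 4 * k + s) ≤ (1 + k * C) * T := by
  obtain ⟨j', hj', hp⟩ := win_exists hk hper hA (n0 + (s + 3) % 4)
  set j := n0 + (s + 3) % 4 + 4 * j' with hj
  have h0 := hw j (by omega) (by omega) hp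
  have key : ∀ t : ℕ, j + 1 + 4 * t < n0 + 4 * k + 4 → x (j + 1 + 4 * t) ≤ T + t * (C * T) := by
    intro t
    induction t with
    | zero => intro _; simpa using h0
    | succ t ih =>
      intro ht
      have h1 := ih (by omega)
      have h2 := hx.four hB (j + 1 + 4 * t)
      have h3 : B (j + 1 + 4 * t) * x (j + 1 + 4 * t + 1) ≤ C * T := by
        by_cases hpos : 0 < B (j + 1 + 4 * t)
        · exact mul_le_mul (hC _) (hw _ (by omega) (by omega) hpos) (hx.pos _).le hC0
        · have : B (j + 1 + 4 * t) = 0 := le_antisymm (not_lt.1 hpos) (hB _)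
          rw [this, zero_mul]
          positivity
      rw [show j + 1 + 4 * (t + 1) = j + 1 + 4 * t + 4 by ring]
      push_cast
      linarith
  obtain ⟨t, ht, htk⟩ : ∃ t, n0 + 4 * k + s = j + 1 + 4 * t ∧ t ≤ k :=
    ⟨(n0 + 4 * k + s - (j + 1)) / 4, by omega, by omega⟩
  rw [ht]
  have h1 := key t (by omega)
  have h2 : (t : ℝ) * (C * T) ≤ k * (C * T) := by
    apply mul_le_mul_of_nonneg_right _ (by positivity)
    exact_mod_cast htk
  linarith

theorem growth (hx : Sol B x) (hB : ∀ n, 0 ≤ B n) {C : ℝ} (hC0 : 0 ≤ C) (hC : ∀ n, B n ≤ C)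
    (n0 : ℕ) {D : ℝ} (hD : 0 ≤ D) (hw : ∀ s, s < 4 → x (n0 + s) ≤ D) (s : ℕ) :
    x (n0 + s) ≤ (1 + C) ^ s * D := by
  have hone : ∀ m : ℕ, 1 ≤ (1 + C) ^ m := fun m => one_le_pow₀ (by linarith)
  induction s using Nat.strong_induction_on with
  | _ s ih =>
    by_cases hs : s < 4
    · have := hw s hs
      nlinarith [hone s]
    · obtain ⟨t, rfl⟩ : ∃ t, s = t + 4 := ⟨s - 4, by omega⟩
      have h1 := ih t (by omega)
      have h2 := ih (t + 1) (by omega)
      have h3 := hx.four hB (n0 + t)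
      have h4 : B (n0 + t) * x (n0 + t + 1) ≤ C * ((1 + C) ^ (t + 1) * D) :=
        mul_le_mul (hC _) (by rw [Nat.add_assoc]; exact h2) (hx.pos _).le hC0
      have e : (1 + C) ^ (t + 4) = (1 + C) ^ t * (1 + C) ^ 4 := pow_add _ _ _
      have e' : (1 + C) ^ (t + 1) = (1 + C) ^ t * (1 + C) := pow_succ _ _
      rw [e'] at h4
      rw [e, show n0 + (t + 4) = n0 + t + 4 by ring]
      have hP : 0 ≤ (1 + C) ^ t * D := by positivity
      have h5 : C * ((1 + C) ^ t * (1 + C) * D) + (1 + C) ^ t * D ≤ (1 + C) ^ t * (1 + C) ^ 4 * D := by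
        have : (1 + C) ^ t * (1 + C) ^ 4 * D -
            (C * ((1 + C) ^ t * (1 + C) * D) + (1 + C) ^ t * D) =
            ((1 + C) ^ t * D) * ((1 + C) ^ 4 - C * (1 + C) - 1) := by ring
        have h6 : 0 ≤ (1 + C) ^ 4 - C * (1 + C) - 1 := by
          have : (1 + C) ^ 4 - C * (1 + C) - 1 = C * (3 + 5 * C + 4 * C ^ 2 + C ^ 3) := by ring
          rw [this]; positivity
        nlinarith [mul_nonneg hP h6]
      linarith

theorem main_bdd (hx : Sol B x) (hB : ∀ n, 0 ≤ B n) {k : ℕ} (hk : 0 < k)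
    (hper : ∀ n, B (n + k) = B n) (hA : ∀ r, Act B r) (hc : Contr B k) : Bdd x := by
  by_contra hnb
  obtain ⟨C, hC0, hC⟩ := bound_B hk hB hper
  obtain ⟨b, hb, hbB⟩ := bound_b hk hper
  obtain ⟨c0, hc0, hrho0⟩ := rho_lower hB hC0 hC hb hbB (2 * k)
  set c := min c0 1 with hcdef
  have hc1 : c ≤ 1 := min_le_right _ _
  have hcpos : 0 < c := lt_min hc0 one_pos
  have hrho : ∀ n, 0 < B n → ∀ i, i ≤ 2 * k → c ≤ rho B n i := fun n hn i hi =>
    (min_le_left _ _).trans (hrho0 n hn i hi)
  set C1 := (1 + C) ^ (4 * k) with hC1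
  have hC1pos : 1 ≤ C1 := one_le_pow₀ (by linarith)
  obtain ⟨r, hr⟩ := contr_unif hB hk hper hA hc (ε := 1 / (4 * C1)) (by positivity)
  set N := 4 * k * (r + 3) with hN
  have hN0 : 0 < N := by positivity
  -- η
  set m := 2 * k * N with hm
  have hm0 : 0 < m := by positivity
  have hm0' : (0 : ℝ) < m := by exact_mod_cast hm0
  set η : ℝ := 1 / m with hηdef
  have hη : 0 < η := by positivity
  have hηpow : (1 + η) ^ m ≤ 3 := by
    have h1 : 1 + η ≤ Real.exp η := by linarith [Real.add_one_le_exp η]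
    calc (1 + η) ^ m ≤ (Real.exp η) ^ m := pow_le_pow_left₀ (by positivity) h1 m
      _ = Real.exp 1 := by
        rw [← Real.exp_nat_mul, hηdef, mul_one_div_cancel hm0'.ne']
      _ ≤ 3 := by linarith [Real.exp_one_lt_d9]
  -- threshold
  set T := 1 + 1 / b + 1 / (η * b) + C / (η * c) with hT
  have hT1 : 1 ≤ T := by
    have : 0 ≤ 1 / b + 1 / (η * b) + C / (η * c) := by positivity
    linarith
  have hTb : 1 ≤ b * T := by
    have h1 : 1 / b ≤ T := by
      have : 0 ≤ 1 + 1 / (η * b) + C / (η * c) := by positivity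
      linarith
    rw [div_le_iff₀ hb] at h1
    linarith
  have hTη : 1 ≤ η * b * T := by
    have h1 : 1 / (η * b) ≤ T := by
      have : 0 ≤ 1 + 1 / b + C / (η * c) := by positivity
      linarith
    rw [div_le_iff₀ (by positivity)] at h1
    linarith
  have hTC : C ≤ η * c * T := by
    have h1 : C / (η * c) ≤ T := by
      have : 0 ≤ 1 + 1 / b + 1 / (η * b) := by positivity
      linarith
    rw [div_le_iff₀ (by positivity)] at h1
    linarith
  -- record
  set κ := 2 * (1 + k * C) * (1 + C) ^ N with hκ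
  have hκ0 : 0 < κ := by positivity
  set D0 := ∑ i ∈ Finset.range (N + 1), x i with hD0
  have hD0' : ∀ i, i ≤ N → x i ≤ D0 := fun i hi =>
    Finset.single_le_sum (f := x) (fun i _ => (hx.pos i).le) (Finset.mem_range.2 (by omega))
  set D := max D0 (κ * T / c ^ N) with hD
  have hex : ∃ n, D < x n := by
    by_contra hcon
    push Not at hcon
    exact hnb ⟨D, hcon⟩
  classical
  set ns := Nat.find hex with hns
  have hnsD : D < x ns := Nat.find_spec hex
  have hrec : ∀ i, i ≤ ns → x i ≤ x ns := by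
    intro i hi
    rcases Nat.lt_or_ge i ns with h | h
    · have := Nat.find_min hex h
      exact (not_lt.1 this).trans hnsD.le
    · rw [le_antisymm hi h]
  have hnsN : N < ns := by
    by_contra hcon
    push Not at hcon
    exact absurd ((hD0' ns hcon).trans (le_max_left _ _)) (not_le.2 hnsD)
  have hxns := hx.pos ns
  set n0 := ns - N with hn0
  -- an active index with a large value
  obtain ⟨j0, hj01, hj02, hj0B, hj0⟩ : ∃ j, n0 ≤ j ∧ j < n0 + 4 * k ∧ 0 < B j ∧
      x ns / κ < x (j + 1) := by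
    by_contra hcon
    push Not at hcon
    have hw := window hx hB hk hper hA hC0 hC n0 (T := x ns / κ) (by positivity)
      (fun j h1 h2 h3 => hcon j h1 h2 h3)
    have hg := growth hx hB hC0 hC (n0 + 4 * k) (D := (1 + k * C) * (x ns / κ)) (by positivity)
      hw (ns - (n0 + 4 * k))
    have hle : n0 + 4 * k ≤ ns := by
      have : 4 * k ≤ N := by rw [hN]; nlinarith
      omega
    rw [Nat.add_sub_cancel' hle] at hg
    have hpow : (1 + C) ^ (ns - (n0 + 4 * k)) ≤ (1 + C) ^ N :=
      pow_le_pow_right₀ (by linarith) (by omega)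
    have hfin : x ns ≤ (1 + C) ^ N * ((1 + k * C) * (x ns / κ)) :=
      hg.trans (mul_le_mul_of_nonneg_right hpow (by positivity))
    have e : (1 + C) ^ N * ((1 + k * C) * (x ns / κ)) = x ns / 2 := by
      rw [hκ]
      field_simp
    rw [e] at hfin
    linarith
  -- the sequence of excursions
  set e : ℕ → ℕ := fun i => (phi B)^[i] j0 with he
  have e0 : e 0 = j0 := rfl
  have esucc : ∀ i, e (i + 1) = phi B (e i) := fun i => Function.iterate_succ_apply' _ _ _
  have epos : ∀ i, 0 < B (e i) := fun i => iter_pos hk hper hA hj0B i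
  have ege : ∀ i, j0 + 3 * i ≤ e i := fun i => iter_ge j0 i
  have estep : ∀ i, e (i + 1) ≤ e i + 4 * k := by
    intro i
    rw [esucc]
    have := gap_lt hk hper hA (e i)
    unfold phi
    omega
  have ele : ∀ i, e i ≤ j0 + 4 * k * i := by
    intro i
    induction i with
    | zero => simp [e0]
    | succ i ih =>
      have := estep i
      have e1 : 4 * k * (i + 1) = 4 * k * i + 4 * k := by ring
      omega
  have emono : ∀ i, e i < e (i + 1) := by
    intro i
    rw [esucc]
    have := phi_ge (B := B) (e i)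
    omega
  have emono' : StrictMono e := strictMono_nat_of_lt_succ emono
  -- the last one before the record
  have hexR : ∃ i, ns ≤ e i := ⟨ns, by have := ege ns; omega⟩
  set R' := Nat.find hexR with hR'
  have hR'1 : ns ≤ e R' := Nat.find_spec hexR
  have hR'2 : ∀ i, i < R' → e i < ns := fun i hi => not_le.1 (Nat.find_min hexR hi)
  have hR'r : r + 1 < R' := by
    by_contra hcon
    push Not at hcon
    have h1 : e R' ≤ e (r + 1) := emono'.monotone hcon
    have h2 := ele (r + 1)
    have e1 : 4 * k * (r + 3) = 4 * k * (r + 1) + 4 * k + 4 * k := by ring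
    omega
  obtain ⟨R, hR⟩ : ∃ R, R' = R + 1 := ⟨R' - 1, by omega⟩
  have hRr : r + 1 ≤ R := by omega
  have heR : e R < ns := hR'2 R (by omega)
  have heR' : ns ≤ e (R + 1) := by rw [← hR]; exact hR'1
  have hRN : R ≤ N := by
    have := ege R
    omega
  -- sizes
  have hMlow : ∀ i, c ^ i * x (j0 + 1) ≤ x (e i + 1) := by
    intro i
    induction i with
    | zero => simp [e0]
    | succ i ih =>
      have h1 := (exc_lower hx hB (e i) (epos i)).1
      have h2 : c ≤ lam B (e i) := hrho _ (epos i) _ (by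
        have := gap_lt hk hper hA (e i)
        omega)
      rw [esucc, pow_succ]
      have h3 := hx.pos (e i + 1)
      nlinarith
  have hMT : ∀ i, i ≤ R → T ≤ x (e i + 1) := by
    intro i hi
    have h1 := hMlow i
    have h2 : c ^ N ≤ c ^ i := pow_le_pow_of_le_one hcpos.le hc1 (by omega)
    have h3 : κ * T / c ^ N < x ns := (le_max_right _ _).trans_lt hnsD
    have hcN : 0 < c ^ N := by positivity
    rw [div_lt_iff₀ hcN] at h3
    rw [div_lt_iff₀ hκ0] at hj0
    have h4 : x ns * c ^ N ≤ (x (j0 + 1) * κ) * c ^ N :=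
      mul_le_mul_of_nonneg_right hj0.le hcN.le
    have h5 : κ * T ≤ κ * (c ^ N * x (j0 + 1)) := by linarith
    have h6 : T ≤ c ^ N * x (j0 + 1) := le_of_mul_le_mul_left h5 hκ0
    have h7 := mul_le_mul_of_nonneg_right h2 (hx.pos (j0 + 1)).le
    linarith
  have hsmall : ∀ i, i + 1 ≤ R → x (e (i + 1)) ≤ 1 := by
    intro i hi
    have h1 := (exc_lower hx hB (e i) (epos i)).2
    rw [← esucc] at h1
    have h2 := hMT i (by omega)
    have h3 := hx.pos (e (i + 1))
    nlinarith
  have hup : ∀ i, i + 1 ≤ R →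
      x (e (i + 2) + 1) ≤ (1 + η) ^ (2 * k) * (lam B (e (i + 1)) * x (e (i + 1) + 1)) := by
    intro i hi
    have hM := hMT (i + 1) hi
    have hMp := hx.pos (e (i + 1) + 1)
    have hBe := hbB _ (epos (i + 1))
    have h1 := exc_upper hx hB hC (e (i + 1)) (epos (i + 1)) hη
      (by
        have h2 := hsmall i hi
        have h3 : η * b * T ≤ η * (B (e (i + 1)) * x (e (i + 1) + 1)) := by
          have : b * T ≤ B (e (i + 1)) * x (e (i + 1) + 1) :=
            mul_le_mul hBe hM (by linarith) (hB _)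
          nlinarith
        linarith)
      (by
        intro j hj
        have hg := gap_lt hk hper hA (e (i + 1))
        have h2 := hrho _ (epos (i + 1)) j (by omega)
        have h3 : T ≤ x (e (i + 1) + 1) ^ 2 := by nlinarith
        have h4 : η * c * T ≤ η * rho B (e (i + 1)) j * x (e (i + 1) + 1) ^ 2 := by
          apply mul_le_mul _ h3 (by linarith) (by
            have := rho_pos hB (epos (i + 1)) j
            positivity)
          exact mul_le_mul_of_nonneg_left h2 hη.le
        linarith)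
    rw [← esucc] at h1
    have h5 : (1 + η) ^ (2 * gap B (e (i + 1)) + 2) ≤ (1 + η) ^ (2 * k) := by
      apply pow_le_pow_right₀ (by linarith)
      have hg := gap_lt hk hper hA (e (i + 1))
      omega
    have h6 : 0 ≤ lam B (e (i + 1)) * x (e (i + 1) + 1) :=
      mul_nonneg (rho_pos hB (epos (i + 1)) _).le hMp.le
    exact h1.trans (mul_le_mul_of_nonneg_right h5 h6)
  -- iterate the upper bound
  have hiter : ∀ i, i + 1 ≤ R → x (e (i + 1) + 1) ≤
      (1 + η) ^ (2 * k * i) * ((∏ j ∈ Finset.range i, lam B (e (1 + j))) * x (e 1 + 1)) := by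
    intro i
    induction i with
    | zero => intro _; simp
    | succ i ih =>
      intro hi
      have h1 := hup i (by omega)
      have h2 := ih (by omega)
      have hl : 0 < lam B (e (i + 1)) := rho_pos hB (epos (i + 1)) _
      have h3 := mul_le_mul_of_nonneg_left h2
        (show 0 ≤ (1 + η) ^ (2 * k) * lam B (e (i + 1)) by positivity)
      have e1 : (1 + η) ^ (2 * k * (i + 1)) = (1 + η) ^ (2 * k * i) * (1 + η) ^ (2 * k) := by
        rw [← pow_add]; congr 1
      rw [Finset.prod_range_succ, e1, add_comm 1 i]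
      calc x (e (i + 1 + 1) + 1) ≤ _ := h1
        _ = (1 + η) ^ (2 * k) * lam B (e (i + 1)) * x (e (i + 1) + 1) := by ring
        _ ≤ _ := h3
        _ = _ := by ring
  obtain ⟨Q, hQ⟩ : ∃ Q, R = Q + 1 := ⟨R - 1, by omega⟩
  have hfinal := hiter Q (by omega)
  rw [← hQ] at hfinal
  -- estimate the three factors
  have hprod : ∏ j ∈ Finset.range Q, lam B (e (1 + j)) ≤ 1 / (4 * C1) := by
    have h1 := hr Q (by omega) (e 1) (epos 1)
    refine le_of_eq_of_le (Finset.prod_congr rfl fun j _ => ?_) h1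
    show lam B ((phi B)^[1 + j] j0) = lam B ((phi B)^[j] ((phi B)^[1] j0))
    rw [add_comm 1 j, Function.iterate_add_apply]
  have hpow : (1 + η) ^ (2 * k * Q) ≤ 3 := by
    refine le_trans (pow_le_pow_right₀ (by linarith) ?_) hηpow
    rw [hm]
    exact Nat.mul_le_mul_left _ (by omega)
  have hM1 : x (e 1 + 1) ≤ x ns := by
    apply hrec
    have := emono'.monotone (show 1 ≤ R by omega)
    omega
  have hprodpos : 0 ≤ ∏ j ∈ Finset.range Q, lam B (e (1 + j)) :=
    Finset.prod_nonneg fun j _ => (rho_pos hB (epos _) _).le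
  have hMR : x (e R + 1) ≤ 3 * (1 / (4 * C1) * x ns) := by
    refine hfinal.trans ?_
    apply mul_le_mul hpow _ (mul_nonneg hprodpos (hx.pos _).le) (by norm_num)
    exact mul_le_mul hprod hM1 (hx.pos _).le (by positivity)
  -- growth after the last excursion
  have hTR := hMT R le_rfl
  have hMRp := hx.pos (e R + 1)
  have hlast := growth hx hB hC0 hC (e R) (D := x (e R + 1)) hMRp.le
    (by
      intro s hs
      interval_cases s
      · have h1 := hsmall (R - 1) (by omega)
        rw [Nat.sub_add_cancel (by omega)] at h1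
        show x (e R) ≤ _
        linarith
      · exact le_rfl
      · show x (e R + 2) ≤ x (e R + 1)
        rw [hx.step (e R), div_le_iff₀ (hx.den_pos hB _)]
        have h1 := hbB _ (epos R)
        have h2 := hx.pos (e R)
        have h3 : b * T ≤ B (e R) * x (e R + 1) := mul_le_mul h1 hTR (by linarith) (hB _)
        have h4 : 1 ≤ B (e R) * x (e R + 1) := hTb.trans h3
        nlinarith
      · show x (e R + 3) ≤ x (e R + 1)
        have h1 : x (e R + 3) * x (e R + 1) ≤ 1 := hx.mul_le hB (e R + 1)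
        have h2 := hx.pos (e R + 3)
        nlinarith)
    (ns - e R)
  rw [Nat.add_sub_cancel' heR.le] at hlast
  have hpow2 : (1 + C) ^ (ns - e R) ≤ C1 := by
    apply pow_le_pow_right₀ (by linarith)
    have := estep R
    omega
  have hlast2 : x ns ≤ C1 * x (e R + 1) :=
    hlast.trans (mul_le_mul_of_nonneg_right hpow2 hMRp.le)
  have hfin : x ns ≤ C1 * (3 * (1 / (4 * C1) * x ns)) :=
    hlast2.trans (mul_le_mul_of_nonneg_left hMR (by linarith))
  have hsimp : C1 * (3 * (1 / (4 * C1) * x ns)) = 3 / 4 * x ns := by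
    field_simp
  rw [hsimp] at hfin
  linarith

theorem act_mod (B : ℕ → ℝ) {r s : ℕ} (h : r % 4 = s % 4) : Act B r ↔ Act B s := by
  unfold Act
  rw [h]

theorem act_all (h0 : Act B 0) (h1 : Act B 1) (h2 : Act B 2) (h3 : Act B 3) (r : ℕ) :
    Act B r := by
  rcases (by omega : r % 4 = 0 ∨ r % 4 = 1 ∨ r % 4 = 2 ∨ r % 4 = 3) with h | h | h | h
  · exact (act_mod B (by omega)).1 h0
  · exact (act_mod B (by omega)).1 h1
  · exact (act_mod B (by omega)).1 h2
  · exact (act_mod B (by omega)).1 h3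

theorem bdd_of_crit (hx : Sol B x) (hB : ∀ n, 0 ≤ B n) {k : ℕ} (hk : 0 < k)
    (hper : ∀ n, B (n + k) = B n) (hcr : Crit B k) : Bdd x := by
  rcases hcr with h | ⟨h0, h2, h1, h3⟩ | ⟨h1, h3, h0, h2⟩ | ⟨h0, h1, h2, h3, hc⟩
  · exact bdd_zero h hx
  · exact bdd_even hk hB hper hx h0 h2 h1 h3
  · apply Bdd.of_shift 1
    apply bdd_even (B := fun n => B (n + 1)) hk (fun n => hB _)
      (fun n => by
        show B (n + k + 1) = B (n + 1)
        rw [show n + k + 1 = n + 1 + k by ring]
        exact hper _) (hx.shift 1)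
    · rw [act_shift hk hper]; exact h1
    · rw [act_shift hk hper]; exact h3
    · rw [act_shift hk hper]; exact h2
    · rw [act_shift hk hper]
      intro h
      exact h0 ((act_mod B (by norm_num)).1 h)
  · exact main_bdd hx hB hk hper (act_all h0 h1 h2 h3) hc

theorem crit_of_bdd (hx : Sol B x) (hB : ∀ n, 0 ≤ B n) {k : ℕ} (hk : 0 < k)
    (hper : ∀ n, B (n + k) = B n) (hb : Bdd x) : Crit B k := by
  have hin : ∀ r, ¬ Act B r → ¬ Act B (r + 2) := fun r h => inactive hk hB hper hx hb r h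
  have h02 : Act B 2 → Act B 0 := fun h => by
    by_contra h'
    exact hin 0 h' h
  have h20 : Act B 0 → Act B 2 := fun h => by
    by_contra h'
    exact hin 2 h' ((act_mod B (by norm_num)).1 h)
  have h13 : Act B 3 → Act B 1 := fun h => by
    by_contra h'
    exact hin 1 h' h
  have h31 : Act B 1 → Act B 3 := fun h => by
    by_contra h'
    exact hin 3 h' ((act_mod B (by norm_num)).1 h)
  by_cases h0 : Act B 0
  · by_cases h1 : Act B 1
    · refine Or.inr (Or.inr (Or.inr ⟨h0, h1, h20 h0, h31 h1, ?_⟩))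
      by_contra hc
      exact not_bdd_of_cycle hx hB hk hper (act_all h0 h1 (h20 h0) (h31 h1)) hc hb
    · exact Or.inr (Or.inl ⟨h0, h20 h0, h1, fun h => h1 (h13 h)⟩)
  · by_cases h1 : Act B 1
    · exact Or.inr (Or.inr (Or.inl ⟨h1, h31 h1, h0, fun h => h0 (h02 h)⟩))
    · refine Or.inl fun n => ?_
      by_contra hne
      have hp : 0 < B n := lt_of_le_of_ne (hB _) (Ne.symm hne)
      rcases (by omega : n % 4 = 0 ∨ n % 4 = 1 ∨ n % 4 = 2 ∨ n % 4 = 3) with h | h | h | h
      · exact h0 ⟨n, by omega, hp⟩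
      · exact h1 ⟨n, by omega, hp⟩
      · exact h0 (h02 ⟨n, by omega, hp⟩)
      · exact h1 (h13 ⟨n, by omega, hp⟩)

end Pool.Agent.Q191.PB
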