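import Pool.Agent.Q191.PB.Basic

/-!
# The successor map on active indices and its multiplier
-/

set_option autoImplicit false
set_option linter.unusedVariables false

namespace Pool.Agent.Q191.PB

variable {B x : ℕ → ℝ}

theorem rho_pos (hB : ∀ n, 0 ≤ B n) {n : ℕ} (hn : 0 < B n) (i : ℕ) : 0 < rho B n i := by
  induction i with
  | zero => exact hn
  | succ i ih =>
    have hb := hB (n + 2 * i + 2)
    rw [rho]
    split_ifs
    · positivity
    · linarith

theorem rho_congr {m n : ℕ} (h : ∀ j, B (m + j) = B (n + j)) (i : ℕ) : rho B m i = rho B n i := by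
  induction i with
  | zero => simpa [rho] using h 0
  | succ i ih =>
    rw [rho, rho, ih, show m + 2 * i + 2 = m + (2 * i + 2) by ring,
      show n + 2 * i + 2 = n + (2 * i + 2) by ring, h]

/-- lower bound along an excursion -/
theorem lower (hx : Sol B x) (hB : ∀ n, 0 ≤ B n) (n : ℕ) (hn : 0 < B n) (i : ℕ)
    (hz : ∀ j, 2 * j + 1 < i → B (n + 4 * j + 3) = 0) :
    (i % 2 = 0 → x (n + 2 * i + 2) * (rho B n i * x (n + 1)) < 1 ∧
      x (n + 1) ≤ x (n + 2 * i + 1)) ∧
    (i % 2 = 1 → rho B n i * x (n + 1) < x (n + 2 * i + 2) ∧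
      x (n + 2 * i + 1) * x (n + 1) ≤ 1) := by
  have hM := hx.pos (n + 1)
  induction i with
  | zero =>
    refine ⟨fun _ => ⟨?_, le_rfl⟩, fun h => absurd h (by norm_num)⟩
    show x (n + 2) * (B n * x (n + 1)) < 1
    rw [hx.step n, one_div_mul_eq_div, div_lt_one (hx.den_pos hB n)]
    have := hx.pos n
    linarith
  | succ i ih =>
    obtain ⟨ih0, ih1⟩ := ih (fun j hj => hz j (by omega))
    have hr := rho_pos hB hn i
    have hB2 := hB (n + 2 * i + 2)
    have hc := hx.pos (n + 2 * i + 3)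
    have hb := hx.pos (n + 2 * i + 2)
    have ha := hx.pos (n + 2 * i + 1)
    have hd : x (n + 2 * i + 4) = 1 / (B (n + 2 * i + 2) * x (n + 2 * i + 3) + x (n + 2 * i + 2)) :=
      hx.step (n + 2 * i + 2)
    have hden : 0 < B (n + 2 * i + 2) * x (n + 2 * i + 3) + x (n + 2 * i + 2) :=
      hx.den_pos hB (n + 2 * i + 2)
    constructor
    · intro hi
      have hi1 : i % 2 = 1 := by omega
      obtain ⟨h1, h2⟩ := ih1 hi1
      have hz' : B (n + 2 * i + 1) = 0 := by
        have := hz (i / 2) (by omega)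
        rwa [show n + 4 * (i / 2) + 3 = n + 2 * i + 1 by omega] at this
      have hc' : x (n + 2 * i + 3) = 1 / x (n + 2 * i + 1) := by
        have := hx.step (n + 2 * i + 1)
        rw [hz', zero_mul, zero_add] at this
        exact this
      have hcM : x (n + 1) ≤ x (n + 2 * i + 3) := by
        rw [hc', le_div_iff₀ ha]
        linarith
      refine ⟨?_, hcM⟩
      show x (n + 2 * i + 4) * (rho B n (i + 1) * x (n + 1)) < 1
      rw [rho, if_neg (by omega), hd, one_div_mul_eq_div, div_lt_one hden]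
      have h3 := mul_le_mul_of_nonneg_left hcM hB2
      linarith
    · intro hi
      have hi0 : i % 2 = 0 := by omega
      obtain ⟨h1, h2⟩ := ih0 hi0
      have hcM : x (n + 2 * i + 3) * x (n + 1) ≤ 1 := by
        have h3 : x (n + 2 * i + 3) * x (n + 2 * i + 1) ≤ 1 := hx.mul_le hB (n + 2 * i + 1)
        exact (mul_le_mul_of_nonneg_left h2 hc.le).trans h3
      refine ⟨?_, hcM⟩
      show rho B n (i + 1) * x (n + 1) < x (n + 2 * i + 4)
      rw [rho, if_pos hi0, hd, lt_div_iff₀ hden]
      have h4 : 0 < 1 + rho B n i * B (n + 2 * i + 2) := by positivity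
      rw [div_mul_eq_mul_div, div_mul_eq_mul_div, div_lt_one h4]
      have h5 := mul_le_mul_of_nonneg_left hcM (mul_nonneg hr.le hB2)
      nlinarith

/-- upper bound along an excursion -/
theorem upper (hx : Sol B x) (hB : ∀ n, 0 ≤ B n) {C : ℝ} (hC : ∀ n, B n ≤ C) (n : ℕ)
    (hn : 0 < B n) {η : ℝ} (hη : 0 < η) (h0 : x n ≤ η * (B n * x (n + 1))) (i : ℕ)
    (hz : ∀ j, 2 * j + 1 < i → B (n + 4 * j + 3) = 0)
    (hT : ∀ j, j ≤ i → C ≤ η * rho B n j * x (n + 1) ^ 2) :
    (i % 2 = 0 → 1 ≤ (1 + η) ^ (i + 1) * (rho B n i * x (n + 1)) * x (n + 2 * i + 2) ∧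
      x (n + 2 * i + 1) ≤ (1 + η) ^ (i + 1) * x (n + 1)) ∧
    (i % 2 = 1 → x (n + 2 * i + 2) ≤ (1 + η) ^ (i + 1) * (rho B n i * x (n + 1)) ∧
      1 ≤ (1 + η) ^ (i + 1) * x (n + 1) * x (n + 2 * i + 1)) := by
  have hM := hx.pos (n + 1)
  induction i with
  | zero =>
    refine ⟨fun _ => ⟨?_, ?_⟩, fun h => absurd h (by norm_num)⟩
    · show 1 ≤ (1 + η) ^ (0 + 1) * (B n * x (n + 1)) * x (n + 2)
      rw [hx.step n, mul_one_div, le_div_iff₀ (hx.den_pos hB n)]
      simp only [zero_add, pow_one]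
      linarith
    · show x (n + 1) ≤ (1 + η) ^ (0 + 1) * x (n + 1)
      simp only [zero_add, pow_one]
      nlinarith
  | succ i ih =>
    obtain ⟨ih0, ih1⟩ := ih (fun j hj => hz j (by omega)) (fun j hj => hT j (by omega))
    obtain ⟨lo0, lo1⟩ := lower hx hB n hn i (fun j hj => hz j (by omega))
    have hr := rho_pos hB hn i
    have hB2 := hB (n + 2 * i + 2)
    have hc := hx.pos (n + 2 * i + 3)
    have hb := hx.pos (n + 2 * i + 2)
    have ha := hx.pos (n + 2 * i + 1)
    have hd : x (n + 2 * i + 4) = 1 / (B (n + 2 * i + 2) * x (n + 2 * i + 3) + x (n + 2 * i + 2)) :=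
      hx.step (n + 2 * i + 2)
    have hden : 0 < B (n + 2 * i + 2) * x (n + 2 * i + 3) + x (n + 2 * i + 2) :=
      hx.den_pos hB (n + 2 * i + 2)
    have hP : 1 ≤ (1 + η) ^ (i + 1) := one_le_pow₀ (by linarith)
    have hP' : (1 + η) ^ (i + 1 + 1) = (1 + η) ^ (i + 1) * (1 + η) := pow_succ _ _
    set P := (1 + η) ^ (i + 1) with hPdef
    have hP0 : 0 < P := by linarith
    rw [hP']
    constructor
    · intro hi
      have hi1 : i % 2 = 1 := by omega
      obtain ⟨h1, h2⟩ := ih1 hi1
      have hz' : B (n + 2 * i + 1) = 0 := by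
        have := hz (i / 2) (by omega)
        rwa [show n + 4 * (i / 2) + 3 = n + 2 * i + 1 by omega] at this
      have hc' : x (n + 2 * i + 3) = 1 / x (n + 2 * i + 1) := by
        have := hx.step (n + 2 * i + 1)
        rw [hz', zero_mul, zero_add] at this
        exact this
      have hcM : x (n + 2 * i + 3) ≤ P * x (n + 1) := by
        rw [hc', div_le_iff₀ ha]
        exact h2
      have hPM : 0 < P * x (n + 1) := by positivity
      refine ⟨?_, ?_⟩
      · show 1 ≤ P * (1 + η) * (rho B n (i + 1) * x (n + 1)) * x (n + 2 * i + 4)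
        rw [rho, if_neg (by omega), hd, mul_one_div, le_div_iff₀ hden, one_mul]
        have h3 := mul_le_mul_of_nonneg_left hcM hB2
        have h4 : 0 ≤ η * (P * ((rho B n i + B (n + 2 * i + 2)) * x (n + 1))) := by positivity
        nlinarith
      · show x (n + 2 * i + 3) ≤ P * (1 + η) * x (n + 1)
        nlinarith
    · intro hi
      have hi0 : i % 2 = 0 := by omega
      obtain ⟨h1, h2⟩ := ih0 hi0
      obtain ⟨l1, l2⟩ := lo0 hi0
      have hT' := hT i (by omega)
      have hc' : x (n + 2 * i + 3) =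
          1 / (B (n + 2 * i + 1) * x (n + 2 * i + 2) + x (n + 2 * i + 1)) :=
        hx.step (n + 2 * i + 1)
      have hden1 : 0 < B (n + 2 * i + 1) * x (n + 2 * i + 2) + x (n + 2 * i + 1) :=
        hx.den_pos hB (n + 2 * i + 1)
      -- the first quantity
      have k1 : B (n + 2 * i + 1) * x (n + 2 * i + 2) ≤ η * x (n + 1) := by
        have e1 : B (n + 2 * i + 1) * x (n + 2 * i + 2) ≤ C * x (n + 2 * i + 2) :=
          mul_le_mul_of_nonneg_right (hC _) hb.le
        have e2 : C * x (n + 2 * i + 2) ≤ (η * rho B n i * x (n + 1) ^ 2) * x (n + 2 * i + 2) :=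
          mul_le_mul_of_nonneg_right hT' hb.le
        have e3 : (η * rho B n i * x (n + 1) ^ 2) * x (n + 2 * i + 2) =
            (η * x (n + 1)) * (x (n + 2 * i + 2) * (rho B n i * x (n + 1))) := by ring
        have e4 : (η * x (n + 1)) * (x (n + 2 * i + 2) * (rho B n i * x (n + 1))) ≤
            (η * x (n + 1)) * 1 := mul_le_mul_of_nonneg_left l1.le (by positivity)
        linarith
      have k2 : 1 ≤ P * (1 + η) * x (n + 1) * x (n + 2 * i + 3) := by
        rw [hc', mul_one_div, le_div_iff₀ hden1, one_mul]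
        have e5 : η * x (n + 1) ≤ P * (η * x (n + 1)) := by
          have : 0 < η * x (n + 1) := by positivity
          nlinarith
        nlinarith
      refine ⟨?_, k2⟩
      show x (n + 2 * i + 4) ≤ P * (1 + η) * (rho B n (i + 1) * x (n + 1))
      rw [rho, if_pos hi0, hd, div_le_iff₀ hden]
      have h4 : 0 < 1 + rho B n i * B (n + 2 * i + 2) := by positivity
      have e6 : P * (1 + η) * (rho B n i / (1 + rho B n i * B (n + 2 * i + 2)) * x (n + 1)) *
          (B (n + 2 * i + 2) * x (n + 2 * i + 3) + x (n + 2 * i + 2)) =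
          (rho B n i * B (n + 2 * i + 2) * (P * (1 + η) * x (n + 1) * x (n + 2 * i + 3)) +
            (1 + η) * (P * (rho B n i * x (n + 1)) * x (n + 2 * i + 2))) /
            (1 + rho B n i * B (n + 2 * i + 2)) := by
        field_simp
      rw [e6, le_div_iff₀ h4, one_mul]
      have e7 := mul_le_mul_of_nonneg_left k2 (mul_nonneg hr.le hB2)
      nlinarith

section gap

variable {k : ℕ} (hk : 0 < k) (hper : ∀ n, B (n + k) = B n) (hA : ∀ r, Act B r)

include hk hper hA

theorem gap_exists (n : ℕ) : ∃ j, j < k ∧ 0 < B (n + 3 + 4 * j) := by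
  obtain ⟨m, hm, hp⟩ := hA (n + 3)
  -- move `m` beyond `n + 3`
  have h1 : n + 3 ≤ m + k * (4 * (n + 3)) := by nlinarith [Nat.one_le_iff_ne_zero.2 hk.ne']
  have h2 : (k * (4 * (n + 3))) % 4 = 0 := by
    rw [show k * (4 * (n + 3)) = 4 * (k * (n + 3)) by ring]
    exact Nat.mul_mod_right _ _
  obtain ⟨j', hj'⟩ : ∃ j', m + k * (4 * (n + 3)) = n + 3 + 4 * j' :=
    ⟨(m + k * (4 * (n + 3)) - (n + 3)) / 4, by omega⟩
  refine ⟨j' % k, Nat.mod_lt _ hk, ?_⟩
  have h3 : B (n + 3 + 4 * j') = B m := by rw [← hj']; exact per_mul hper _ _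
  have h4 : B (n + 3 + 4 * (j' % k)) = B (n + 3 + 4 * j') := by
    conv_rhs => rw [← Nat.mod_add_div j' k]
    rw [show n + 3 + 4 * (j' % k + k * (j' / k)) =
      n + 3 + 4 * (j' % k) + k * (4 * (j' / k)) by ring]
    exact (per_mul hper _ _).symm
  rw [h4, h3]
  exact hp

theorem gap_lt (n : ℕ) : gap B n < k := by
  obtain ⟨j, hj, hp⟩ := gap_exists hk hper hA n
  exact lt_of_le_of_lt (Nat.sInf_le hp) hj

theorem phi_pos (n : ℕ) : 0 < B (phi B n) := by
  obtain ⟨j, hj, hp⟩ := gap_exists hk hper hA n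
  exact Nat.sInf_mem (s := {j | 0 < B (n + 3 + 4 * j)}) ⟨j, hp⟩

omit hk hper hA in
theorem gap_zero (hB : ∀ n, 0 ≤ B n) (n j : ℕ) (hj : j < gap B n) : B (n + 4 * j + 3) = 0 := by
  have h := Nat.notMem_of_lt_sInf hj
  have h' : ¬ 0 < B (n + 3 + 4 * j) := h
  rw [show n + 4 * j + 3 = n + 3 + 4 * j by ring]
  exact le_antisymm (not_lt.1 h') (hB _)

omit hk hA in
theorem gap_congr {m n : ℕ} (h : m ≡ n [MOD k]) : gap B m = gap B n := by
  unfold gap
  congr 1
  ext j
  show 0 < B (m + 3 + 4 * j) ↔ 0 < B (n + 3 + 4 * j)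
  rw [show m + 3 + 4 * j = m + (3 + 4 * j) by ring, show n + 3 + 4 * j = n + (3 + 4 * j) by ring,
    per_mod hper (h.add_right (3 + 4 * j))]

omit hk hA in
theorem lam_congr {m n : ℕ} (h : m ≡ n [MOD k]) : lam B m = lam B n := by
  unfold lam
  rw [gap_congr hper h]
  exact rho_congr (fun j => per_mod hper (h.add_right j)) _

omit hk hA in
theorem phi_congr {m n : ℕ} (h : m ≡ n [MOD k]) : phi B m ≡ phi B n [MOD k] := by
  unfold phi
  rw [gap_congr hper h]
  exact (h.add_right _).add_right _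

omit hk hA in
theorem iter_congr {m n : ℕ} (h : m ≡ n [MOD k]) (i : ℕ) :
    (phi B)^[i] m ≡ (phi B)^[i] n [MOD k] := by
  induction i with
  | zero => exact h
  | succ i ih =>
    rw [Function.iterate_succ_apply', Function.iterate_succ_apply']
    exact phi_congr hper ih

theorem iter_pos {n : ℕ} (hn : 0 < B n) (i : ℕ) : 0 < B ((phi B)^[i] n) := by
  cases i with
  | zero => exact hn
  | succ i =>
    rw [Function.iterate_succ_apply']
    exact phi_pos hk hper hA _

end gap

/-- one excursion: lower bound -/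
theorem exc_lower (hx : Sol B x) (hB : ∀ n, 0 ≤ B n) (n : ℕ) (hn : 0 < B n) :
    lam B n * x (n + 1) < x (phi B n + 1) ∧ x (phi B n) * x (n + 1) ≤ 1 := by
  have h := (lower hx hB n hn (2 * gap B n + 1)
    (fun j hj => gap_zero hB n j (by omega))).2 (by omega)
  have e1 : n + 2 * (2 * gap B n + 1) + 2 = phi B n + 1 := by unfold phi; ring
  have e2 : n + 2 * (2 * gap B n + 1) + 1 = phi B n := by unfold phi; ring
  rw [e1, e2] at h
  exact h

/-- one excursion: upper bound -/
theorem exc_upper (hx : Sol B x) (hB : ∀ n, 0 ≤ B n) {C : ℝ} (hC : ∀ n, B n ≤ C) (n : ℕ)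
    (hn : 0 < B n) {η : ℝ} (hη : 0 < η) (h0 : x n ≤ η * (B n * x (n + 1)))
    (hT : ∀ j, j ≤ 2 * gap B n + 1 → C ≤ η * rho B n j * x (n + 1) ^ 2) :
    x (phi B n + 1) ≤ (1 + η) ^ (2 * gap B n + 2) * (lam B n * x (n + 1)) := by
  have h := ((upper hx hB hC n hn hη h0 (2 * gap B n + 1)
    (fun j hj => gap_zero hB n j (by omega)) hT).2 (by omega)).1
  have e1 : n + 2 * (2 * gap B n + 1) + 2 = phi B n + 1 := by unfold phi; ring
  rw [e1] at h
  exact h

theorem prod_pos' (hB : ∀ n, 0 ≤ B n) {k : ℕ} (hk : 0 < k) (hper : ∀ n, B (n + k) = B n)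
    (hA : ∀ r, Act B r) {n : ℕ} (hn : 0 < B n) (i : ℕ) :
    0 < ∏ j ∈ Finset.range i, lam B ((phi B)^[j] n) :=
  Finset.prod_pos fun j _ => rho_pos hB (iter_pos hk hper hA hn j) _

/-- uniform contraction -/
theorem contr_unif (hB : ∀ n, 0 ≤ B n) {k : ℕ} (hk : 0 < k) (hper : ∀ n, B (n + k) = B n)
    (hA : ∀ r, Act B r) (hc : Contr B k) {ε : ℝ} (hε : 0 < ε) :
    ∃ r, ∀ r', r ≤ r' → ∀ n, 0 < B n →
      ∏ j ∈ Finset.range r', lam B ((phi B)^[j] n) ≤ ε := by
  have key : ∀ n, 0 < B n → ∃ r, ∀ r', r ≤ r' →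
      ∏ j ∈ Finset.range r', lam B ((phi B)^[j] n) ≤ ε := by
    intro n hn
    set e : ℕ → ℕ := fun i => (phi B)^[i] n with he
    set P : ℕ → ℝ := fun j => ∏ i ∈ Finset.range j, lam B (e i) with hP
    have hPpos : ∀ j, 0 < P j := fun j => prod_pos' hB hk hper hA hn j
    -- a repetition
    obtain ⟨a, b, hab, hmod⟩ : ∃ a b, a < b ∧ e a ≡ e b [MOD k] := by
      obtain ⟨a, ha, b, hb, hne, heq⟩ := Finset.exists_ne_map_eq_of_card_lt_of_maps_to
        (s := Finset.range (k + 1)) (t := Finset.range k) (by simp)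
        (f := fun i => e i % k) (fun i _ => Finset.mem_coe.2 (Finset.mem_range.2 (Nat.mod_lt _ hk)))
      rcases lt_or_gt_of_ne hne with h | h
      · exact ⟨a, b, h, heq⟩
      · exact ⟨b, a, h, heq.symm⟩
    obtain ⟨c, hc0, rfl⟩ : ∃ c, 0 < c ∧ b = a + c := ⟨b - a, by omega, by omega⟩
    have eadd : ∀ i j, e (i + j) = (phi B)^[i] (e j) := fun i j => by
      simp only [he]
      rw [Function.iterate_add_apply]
    have hmod' : ∀ j, a ≤ j → e (j + c) ≡ e j [MOD k] := by
      intro j hj
      obtain ⟨t, rfl⟩ : ∃ t, j = a + t := ⟨j - a, by omega⟩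
      have h1 := iter_congr hper hmod t
      rw [← eadd, ← eadd] at h1
      rw [show a + t + c = t + (a + c) by ring, show a + t = t + a by ring]
      exact h1.symm
    -- the multiplier of the cycle
    set Λ := P (a + c) / P a with hΛ
    have hΛ0 : 0 < Λ := div_pos (hPpos _) (hPpos _)
    have hΛ1 : Λ < 1 := by
      have h1 := hc (e a) (iter_pos hk hper hA hn a) c hc0
        (by rw [← eadd, add_comm c a]; exact hmod.symm)
      rw [hΛ, div_lt_one (hPpos a)]
      have h2 : P (a + c) = P a * ∏ j ∈ Finset.range c, lam B ((phi B)^[j] (e a)) := by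
        simp only [hP]
        rw [Finset.prod_range_add]
        congr 1
        refine Finset.prod_congr rfl fun j _ => ?_
        rw [← eadd, add_comm]
      rw [h2]
      exact mul_lt_of_lt_one_right (hPpos a) h1
    have hrec : ∀ t, P (a + t + c) = Λ * P (a + t) := by
      intro t
      induction t with
      | zero => rw [add_zero, hΛ, div_mul_cancel₀ _ (hPpos a).ne']
      | succ t ih =>
        have e1 : P (a + (t + 1) + c) = P (a + t + c) * lam B (e (a + t + c)) := by
          simp only [hP]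
          rw [show a + (t + 1) + c = a + t + c + 1 by ring, Finset.prod_range_succ]
        have e2 : P (a + (t + 1)) = P (a + t) * lam B (e (a + t)) := by
          simp only [hP]
          rw [show a + (t + 1) = a + t + 1 by ring, Finset.prod_range_succ]
        rw [e1, e2, ih, lam_congr hper (hmod' (a + t) (by omega))]
        ring
    -- bound on one period
    obtain ⟨Q, hQ0, hQ⟩ : ∃ Q, 0 < Q ∧ ∀ t, t < c → P (a + t) ≤ Q :=
      ⟨∑ t ∈ Finset.range c, P (a + t),
        Finset.sum_pos (fun t _ => hPpos _) ⟨0, Finset.mem_range.2 hc0⟩,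
        fun t ht => Finset.single_le_sum (f := fun t => P (a + t)) (fun t _ => (hPpos _).le)
          (Finset.mem_range.2 ht)⟩
    have hQ' : ∀ t, P (a + t) ≤ Q := by
      intro t
      induction t using Nat.strong_induction_on with
      | _ t ih =>
        by_cases ht : t < c
        · exact hQ t ht
        · have h1 := ih (t - c) (by omega)
          have h2 := hrec (t - c)
          rw [show a + (t - c) + c = a + t by omega] at h2
          rw [h2]
          have := hPpos (a + (t - c))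
          nlinarith
    have hpow : ∀ s t, c * s ≤ t → P (a + t) ≤ Λ ^ s * Q := by
      intro s
      induction s with
      | zero => intro t _; rw [pow_zero, one_mul]; exact hQ' t
      | succ s ih =>
        intro t ht
        have e3 : c * (s + 1) = c * s + c := by ring
        have h1 := ih (t - c) (by omega)
        have h2 := hrec (t - c)
        rw [show a + (t - c) + c = a + t by omega] at h2
        rw [h2, pow_succ]
        nlinarith
    obtain ⟨s, hs⟩ := exists_pow_lt_of_lt_one (show 0 < ε / Q by positivity) hΛ1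
    refine ⟨a + c * s, fun r' hr' => ?_⟩
    have h1 := hpow s (r' - a) (by omega)
    rw [show a + (r' - a) = r' by omega] at h1
    rw [lt_div_iff₀ hQ0] at hs
    exact h1.trans hs.le
  -- uniformity over the residues
  have key2 : ∀ K, ∃ r, ∀ r', r ≤ r' → ∀ n, n < K → 0 < B n →
      ∏ j ∈ Finset.range r', lam B ((phi B)^[j] n) ≤ ε := by
    intro K
    induction K with
    | zero => exact ⟨0, fun r' _ n hn => absurd hn (Nat.not_lt_zero n)⟩
    | succ K ih =>
      obtain ⟨r, hr⟩ := ih
      by_cases hK : 0 < B K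
      · obtain ⟨r1, hr1⟩ := key K hK
        refine ⟨max r r1, fun r' h' n hn hBn => ?_⟩
        rcases Nat.lt_succ_iff_lt_or_eq.1 hn with h'' | h''
        · exact hr r' ((le_max_left _ _).trans h') n h'' hBn
        · rw [h'']; exact hr1 r' ((le_max_right _ _).trans h')
      · refine ⟨r, fun r' h' n hn hBn => ?_⟩
        rcases Nat.lt_succ_iff_lt_or_eq.1 hn with h'' | h''
        · exact hr r' h' n h'' hBn
        · rw [h''] at hBn; exact absurd hBn hK
  obtain ⟨r, hr⟩ := key2 k
  refine ⟨r, fun r' h' n hn => ?_⟩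
  have hm : n % k ≡ n [MOD k] := Nat.mod_modEq n k
  have h1 := hr r' h' (n % k) (Nat.mod_lt n hk) (by rw [per_mod hper hm]; exact hn)
  have h2 : ∏ j ∈ Finset.range r', lam B ((phi B)^[j] (n % k)) =
      ∏ j ∈ Finset.range r', lam B ((phi B)^[j] n) :=
    Finset.prod_congr rfl fun j _ => lam_congr hper (iter_congr hper hm j)
  rwa [h2] at h1

end Pool.Agent.Q191.PB
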