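import Pool.Agent.Q191.PB.Main

/-!
# The criterion when all coefficients are positive
-/

set_option autoImplicit false
set_option linter.unusedVariables false

namespace Pool.Agent.Q191.PB

variable {B : ℕ → ℝ}

theorem gap_pos (hp : ∀ n, 0 < B n) (n : ℕ) : gap B n = 0 :=
  Nat.sInf_eq_zero.2 (Or.inl (hp _))

theorem phi_eq (hp : ∀ n, 0 < B n) (n : ℕ) : phi B n = n + 3 := by
  unfold phi
  rw [gap_pos hp, mul_zero, add_zero]

theorem lam_eq (hp : ∀ n, 0 < B n) (n : ℕ) : lam B n = B n / (1 + B n * B (n + 2)) := by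
  unfold lam
  rw [gap_pos hp]
  show rho B n 1 = _
  rw [rho, if_pos (by norm_num)]
  rfl

theorem iter_eq (hp : ∀ n, 0 < B n) (n i : ℕ) : (phi B)^[i] n = n + 3 * i := by
  induction i with
  | zero => rfl
  | succ i ih => rw [Function.iterate_succ_apply', ih, phi_eq hp]; ring

theorem prod_mul_per {f : ℕ → ℝ} {i : ℕ} (hf : ∀ j, f (i + j) = f j) (m : ℕ) :
    ∏ j ∈ Finset.range (i * m), f j = (∏ j ∈ Finset.range i, f j) ^ m := by
  induction m with
  | zero => simp
  | succ m ih =>
    rw [Nat.mul_succ, Nat.add_comm, Finset.prod_range_add, pow_succ, mul_comm]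
    congr 1
    rw [← ih]
    exact Finset.prod_congr rfl fun j _ => hf j

theorem crit_pos {k : ℕ} (hk : 0 < k) (hper : ∀ n, B (n + k) = B n) (hp : ∀ n, 0 < B n) :
    Crit B k ↔ ∀ n, ∏ j ∈ Finset.range k,
      B (n + 3 * j) / (1 + B (n + 3 * j) * B (n + 3 * j + 2)) < 1 := by
  have hact : ∀ r, Act B r := fun r => ⟨r, rfl, hp r⟩
  have hc : Crit B k ↔ Contr B k := by
    constructor
    · rintro (h | ⟨_, _, h, _⟩ | ⟨_, _, h, _⟩ | ⟨_, _, _, _, h⟩)
      · exact absurd (h 0) (hp 0).ne'
      · exact absurd (hact 1) h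
      · exact absurd (hact 0) h
      · exact h
    · exact fun h => Or.inr (Or.inr (Or.inr ⟨hact 0, hact 1, hact 2, hact 3, h⟩))
  rw [hc]
  have hlam : ∀ n i, ∏ j ∈ Finset.range i, lam B ((phi B)^[j] n) =
      ∏ j ∈ Finset.range i, B (n + 3 * j) / (1 + B (n + 3 * j) * B (n + 3 * j + 2)) :=
    fun n i => Finset.prod_congr rfl fun j _ => by rw [iter_eq hp, lam_eq hp]
  constructor
  · intro h n
    rw [← hlam]
    refine h n (hp n) k hk ?_
    rw [iter_eq hp]
    exact (Nat.modEq_iff_dvd' (by omega)).2 ⟨3, by omega⟩ |>.symm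
  · intro h n _ i hi hmod
    rw [iter_eq hp] at hmod
    rw [hlam]
    set f : ℕ → ℝ := fun j => B (n + 3 * j) / (1 + B (n + 3 * j) * B (n + 3 * j + 2)) with hf
    have hfpos : ∀ j, 0 < f j := fun j => by
      have h1 := hp (n + 3 * j)
      have h2 := hp (n + 3 * j + 2)
      simp only [hf]
      positivity
    have hfi : ∀ j, f (i + j) = f j := by
      intro j
      have h1 : n + 3 * (i + j) ≡ n + 3 * j [MOD k] := by
        have := hmod.add_right (3 * j)
        rwa [show n + 3 * i + 3 * j = n + 3 * (i + j) by ring] at this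
      simp only [hf]
      rw [per_mod hper h1, per_mod hper (h1.add_right 2)]
    have hfk : ∀ j, f (k + j) = f j := by
      intro j
      simp only [hf]
      have e1 : n + 3 * (k + j) = n + 3 * j + k * 3 := by ring
      have e2 : n + 3 * (k + j) + 2 = n + 3 * j + 2 + k * 3 := by ring
      rw [e2, e1, per_mul hper, per_mul hper]
    have h1 := prod_mul_per hfi k
    have h2 := prod_mul_per hfk i
    rw [mul_comm k i, h1] at h2
    have h3 : (∏ j ∈ Finset.range k, f j) ^ i < 1 :=
      pow_lt_one₀ (Finset.prod_nonneg fun j _ => (hfpos j).le) (h n) (by omega)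
    rw [← h2] at h3
    by_contra hcon
    push Not at hcon
    exact absurd (one_le_pow₀ hcon) (not_le.2 h3)

end Pool.Agent.Q191.PB
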